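import Pool.Agent.Lib.MP_09a217_co.Strict.Free

set_option autoImplicit false

/-! Prime powers dividing the number of bent functions. -/

namespace Pool.Agent.Results.MP_09a217_co.Congruences

open Pool.Agent.Lib.MP09a217.CG

/-- The set of bent functions in `n` variables (`n` even): all Walsh-Hadamard coefficients are
`2 ^ (n / 2)` or `- 2 ^ (n / 2)`. -/
def BentSet (n : ℕ) : Set ((Fin n → ZMod 2) → ZMod 2) :=
  {f | ∀ y : Fin n → ZMod 2,
    |∑ x : Fin n → ZMod 2, (-1 : ℤ) ^ ((∑ i, x i * y i) + f x).val| = 2 ^ (n / 2)}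

lemma mem_iff (k : ℕ) (f : (Fin (2 * k) → ZMod 2) → ZMod 2) : f ∈ BentSet (2 * k) ↔ DB f := by
  rw [db_iff]
  simp only [BentSet, Set.mem_ofPred_eq]
  have hk : 2 * k / 2 = k := by omega
  have h1 : ∀ y : Fin (2 * k) → ZMod 2,
      ∑ x : Fin (2 * k) → ZMod 2, (-1 : ℤ) ^ ((∑ i, x i * y i) + f x).val = W f y := by
    intro y
    rw [W]
    apply Finset.sum_congr rfl
    intro x _
    have : (∑ i, x i * y i) + f x = f x + dot y x := by
      rw [add_comm, dot_comm]
      rfl
    rw [this]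
    rfl
  have h2 : ∀ z : ℤ, |z| = 2 ^ k ↔ z ^ 2 = 2 ^ (2 * k) := by
    intro z
    have hp : (0 : ℤ) < 2 ^ k := by positivity
    have e : (2 : ℤ) ^ (2 * k) = (2 ^ k) ^ 2 := by ring
    rw [e, ← sq_abs z]
    constructor
    · intro h; rw [h]
    · intro h
      exact (pow_left_inj₀ (abs_nonneg z) hp.le (by norm_num)).mp h
  simp only [h1, hk, h2]

lemma ncard_eq {n : ℕ} (hn : Even n) : (BentSet n).ncard = bn (Fin n → ZMod 2) := by
  obtain ⟨k, rfl⟩ := hn.two_dvd
  rw [← Nat.card_coe_set_eq, bn]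
  exact Nat.card_congr (Equiv.subtypeEquivRight (mem_iff k))

/-- Let `n` be even, let `d ≤ n` be odd, and let `p` be a prime such that
`2 ^ n < 2 ^ (n - d) * (p - 1) ^ 2 + 2 ^ (d + 2) * p`. Then every power of `p` which divides
`2 ^ d - 1` divides the number of bent functions in `n` variables. -/
theorem result (n d p a : ℕ) (hn : Even n) (hd : Odd d) (hdn : d ≤ n) (hp : p.Prime)
    (h : 2 ^ n < 2 ^ (n - d) * (p - 1) ^ 2 + 2 ^ (d + 2) * p) (ha : p ^ a ∣ 2 ^ d - 1) :
    p ^ a ∣ (BentSet n).ncard := by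
  classical
  rw [ncard_eq hn]
  rcases Nat.eq_zero_or_pos a with rfl | ha0
  · simp
  let _ : Fintype (GaloisField 2 d) := Fintype.ofFinite _
  have h4 : Fintype.card (GaloisField 2 d) = 2 ^ d := by
    obtain ⟨j, hj⟩ := hd
    rw [← Nat.card_eq_fintype_card, GaloisField.card 2 d (by omega)]
  have e : bn (Fin n → ZMod 2) = bn (GaloisField 2 d × (Fin (n - d) → ZMod 2)) := by
    apply bn_card
    rw [Fintype.card_fun, Fintype.card_prod, h4, Fintype.card_fun, ZMod.card, Fintype.card_fin,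
      Fintype.card_fin, ← pow_add]
    congr 1
    omega
  rw [e]
  apply pow_dvd_bn hp (by rw [h4]; exact ha)
  intro g f hg hf h3
  obtain ⟨k, hk⟩ := hn
  refine no_fix (k := k) h4 hd (by omega) hp ((dvd_pow_self p (by omega)).trans ha) ?_ hg hf h3
  have h5 : d + (n - d) = n := by omega
  rwa [h5]

end Pool.Agent.Results.MP_09a217_co.Congruences
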