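import Pool.Agent.Lib.MP_09a217_co.helper79.Transport

set_option autoImplicit false

/-! A lower bound for the number of bent functions. -/

namespace Pool.Agent.Results.MP_09a217_co.LowerBound

open Pool.Agent.Lib.MP09a217.LB

/-- The set of bent functions in `n` variables (`n` even): all Walsh-Hadamard coefficients are
`2 ^ (n / 2)` or `- 2 ^ (n / 2)`. -/
def BentSet (n : ℕ) : Set ((Fin n → ZMod 2) → ZMod 2) :=
  {f | ∀ y : Fin n → ZMod 2,
    |∑ x : Fin n → ZMod 2, (-1 : ℤ) ^ ((∑ i, x i * y i) + f x).val| = 2 ^ (n / 2)}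

lemma bent_ge (k : ℕ) : (F2 k).card ≤ (BentSet (2 * k + 4)).ncard := by
  have h1 := F2_le k
  have h2 : ((2 ^ k * 2 * 2 : ℕ) : ℤ) = 2 ^ ((k + k + 2 + 2) / 2) := by
    have : (k + k + 2 + 2) / 2 = k + 1 + 1 := by omega
    rw [this, pow_succ, pow_succ]
    push_cast
    ring
  rw [h2] at h1
  have h3 : 2 * k + 4 = k + k + 2 + 2 := by omega
  rw [h3]
  exact h1

lemma main (k : ℕ) : (2 ^ k).factorial ^ 16 * 2 ^ (8 * 2 ^ k) ≤
    2 ^ (8 * k * 2 ^ k) * (BentSet (2 * k + 4)).ncard :=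
  (F2_card k).trans (Nat.mul_le_mul_left _ (bent_ge k))

/-- A lower bound for the square of a factorial. -/
lemma fact_bound (m : ℕ) : m ^ (2 * m) ≤ m.factorial ^ 2 * 8 ^ m := by
  have h1 : (m : ℝ) ^ m / m.factorial ≤ Real.exp m :=
    Real.pow_div_factorial_le_exp (m : ℝ) (Nat.cast_nonneg m) m
  have h2 : (0 : ℝ) < m.factorial := by exact_mod_cast m.factorial_pos
  rw [div_le_iff₀ h2] at h1
  have h3 : Real.exp m ^ 2 ≤ 8 ^ m := by
    have e1 : Real.exp (m : ℝ) ^ 2 = (Real.exp 1 ^ 2) ^ m := by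
      rw [← Real.exp_nat_mul, ← Real.exp_nat_mul, ← Real.exp_nat_mul]
      congr 1
      push_cast
      ring
    rw [e1]
    apply pow_le_pow_left₀ (by positivity)
    have h4 := Real.exp_one_lt_d9
    have h5 := Real.exp_pos 1
    nlinarith
  have h6 : ((m : ℝ) ^ m) ^ 2 ≤ (m.factorial : ℝ) ^ 2 * 8 ^ m := by
    calc ((m : ℝ) ^ m) ^ 2 ≤ (Real.exp m * m.factorial) ^ 2 :=
          pow_le_pow_left₀ (by positivity) h1 2
      _ = (m.factorial : ℝ) ^ 2 * Real.exp m ^ 2 := by ring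
      _ ≤ _ := mul_le_mul_of_nonneg_left h3 (by positivity)
  have h7 : (m : ℝ) ^ (2 * m) = ((m : ℝ) ^ m) ^ 2 := by
    rw [← pow_mul]
    congr 1
    ring
  rw [← h7] at h6
  exact_mod_cast h6

lemma arith (a b k m : ℕ) (hk : 2 ≤ k) (h1 : a ^ 16 * 2 ^ (8 * m) ≤ 2 ^ (8 * k * m) * b)
    (h2 : 2 ^ (2 * k * m) ≤ a ^ 2 * 8 ^ m) : 2 ^ ((8 * k - 16) * m) ≤ b := by
  have h3 : (2 ^ (2 * k * m)) ^ 8 ≤ (a ^ 2 * 8 ^ m) ^ 8 := Nat.pow_le_pow_left h2 8
  have e1 : (a ^ 2 * 8 ^ m) ^ 8 = a ^ 16 * 2 ^ (24 * m) := by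
    rw [mul_pow, ← pow_mul, ← pow_mul, show (8 : ℕ) = 2 ^ 3 from rfl, ← pow_mul]
    congr 2
    ring
  rw [e1, ← pow_mul] at h3
  have h4 : (0 : ℕ) < 2 ^ (8 * k * m + 24 * m) := by positivity
  apply Nat.le_of_mul_le_mul_right _ h4
  calc 2 ^ ((8 * k - 16) * m) * 2 ^ (8 * k * m + 24 * m)
      = 2 ^ (2 * k * m * 8) * 2 ^ (8 * m) := by
        rw [← pow_add, ← pow_add]
        congr 1
        obtain ⟨j, rfl⟩ : ∃ j, k = j + 2 := ⟨k - 2, by omega⟩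
        have : 8 * (j + 2) - 16 = 8 * j := by omega
        rw [this]
        ring
    _ ≤ a ^ 16 * 2 ^ (24 * m) * 2 ^ (8 * m) := Nat.mul_le_mul_right _ h3
    _ = a ^ 16 * 2 ^ (8 * m) * 2 ^ (24 * m) := by
        generalize (2 : ℕ) ^ (24 * m) = u
        generalize (2 : ℕ) ^ (8 * m) = v
        ring
    _ ≤ 2 ^ (8 * k * m) * b * 2 ^ (24 * m) := Nat.mul_le_mul_right _ h1
    _ = b * 2 ^ (8 * k * m + 24 * m) := by
        rw [pow_add]
        generalize (2 : ℕ) ^ (24 * m) = u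
        generalize (2 : ℕ) ^ (8 * k * m) = v
        ring

/-- With `M = 2 ^ k`, the number of bent functions in `2 * k + 4` variables is at least
`(M !) ^ 16 * 2 ^ (8 * M) / 2 ^ (8 * k * M)`; consequently, for every even `n ≥ 8`, the number
of bent functions in `n` variables is at least `2 ^ ((n - 8) * 2 ^ (n / 2))`. -/
theorem result :
    (∀ k : ℕ, (2 ^ k).factorial ^ 16 * 2 ^ (8 * 2 ^ k) ≤
      2 ^ (8 * k * 2 ^ k) * (BentSet (2 * k + 4)).ncard) ∧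
    (∀ n : ℕ, Even n → 8 ≤ n → 2 ^ ((n - 8) * 2 ^ (n / 2)) ≤ (BentSet n).ncard) := by
  refine ⟨main, ?_⟩
  intro n hn h8
  obtain ⟨j, hj⟩ := hn
  obtain ⟨k, hk⟩ : ∃ k, n = 2 * k + 4 := ⟨j - 2, by omega⟩
  have hk2 : 2 ≤ k := by omega
  have h1 := main k
  have h2 := fact_bound (2 ^ k)
  have h3 : (2 ^ k) ^ (2 * 2 ^ k) = 2 ^ (2 * k * 2 ^ k) := by
    rw [← pow_mul]
    congr 1
    ring
  rw [h3] at h2
  have h4 := arith _ _ k _ hk2 h1 h2
  subst hk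
  have h5 : (2 * k + 4 - 8) * 2 ^ ((2 * k + 4) / 2) = (8 * k - 16) * 2 ^ k := by
    have e1 : (2 * k + 4) / 2 = k + 2 := by omega
    rw [e1, pow_add]
    obtain ⟨i, rfl⟩ : ∃ i, k = i + 2 := ⟨k - 2, by omega⟩
    have e2 : 2 * (i + 2) + 4 - 8 = 2 * i := by omega
    have e3 : 8 * (i + 2) - 16 = 8 * i := by omega
    rw [e2, e3]
    ring
  rw [h5]
  exact h4

end Pool.Agent.Results.MP_09a217_co.LowerBound
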