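import Pool.Agent.Lib.MP_09a217_co.Cong.Pow

set_option autoImplicit false

/-! A power of two which divides the number of bent functions. -/

namespace Pool.Agent.Results.MP_09a217_co.PowerOfTwo

open Pool.Agent.Lib.MP09a217.CG

/-- The set of bent functions in `n` variables (`n` even): all Walsh-Hadamard coefficients are
`2 ^ (n / 2)` or `- 2 ^ (n / 2)`. -/
def BentSet (n : ℕ) : Set ((Fin n → ZMod 2) → ZMod 2) :=
  {f | ∀ y : Fin n → ZMod 2,
    |∑ x : Fin n → ZMod 2, (-1 : ℤ) ^ ((∑ i, x i * y i) + f x).val| = 2 ^ (n / 2)}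

lemma mem_iff (k : ℕ) (f : (Fin (2 * k) → ZMod 2) → ZMod 2) : f ∈ BentSet (2 * k) ↔ DB f := by
  rw [db_iff]
  simp only [BentSet, Set.mem_ofPred_eq]
  have hk : 2 * k / 2 = k := by omega
  have h1 : ∀ y : Fin (2 * k) → ZMod 2,
      ∑ x : Fin (2 * k) → ZMod 2, (-1 : ℤ) ^ ((∑ i, x i * y i) + f x).val = W f y := by
    intro y
    rw [W]
    apply Finset.sum_congr rfl
    intro x _
    have : (∑ i, x i * y i) + f x = f x + dot y x := by
      rw [add_comm, dot_comm]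
      rfl
    rw [this]
    rfl
  have h2 : ∀ z : ℤ, |z| = 2 ^ k ↔ z ^ 2 = 2 ^ (2 * k) := by
    intro z
    have hp : (0 : ℤ) < 2 ^ k := by positivity
    have e : (2 : ℤ) ^ (2 * k) = (2 ^ k) ^ 2 := by ring
    rw [e, ← sq_abs z]
    constructor
    · intro h; rw [h]
    · intro h
      exact (pow_left_inj₀ (abs_nonneg z) hp.le (by norm_num)).mp h
  simp only [h1, hk, h2]

lemma ncard_eq {n : ℕ} (hn : Even n) : (BentSet n).ncard = bn (Fin n → ZMod 2) := by
  obtain ⟨k, rfl⟩ := hn.two_dvd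
  rw [← Nat.card_coe_set_eq, bn]
  exact Nat.card_congr (Equiv.subtypeEquivRight (mem_iff k))

lemma two (k : ℕ) : 2 ^ (k ^ 2 + k + 1) ∣ (BentSet (2 * k)).ncard := by
  classical
  have h1 := pow_dvd (2 * k) k 0 (fun f => if DB f then 1 else 0) (by
    intro T hT f
    have key : ∀ g : Fn (2 * k), DB g → DB (T g) := by
      intro g hg
      rw [db_iff] at hg ⊢
      intro y
      obtain ⟨y', s, hy⟩ := hT.walsh y
      rw [hy, mul_pow, hg, sq, sg_mul_self, one_mul]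
    have h : DB (T f) ↔ DB f := ⟨fun h => by
      have := key _ h
      rwa [hT.invol] at this, key f⟩
    simp only [h]) (by
    intro f hf y
    have hb : DB f := by
      by_contra h
      exact hf (if_neg h)
    rw [(db_iff f).1 hb y]
    have e : (2 : ℤ) ^ (2 * k) = 4 ^ k := by rw [pow_mul]; norm_num
    rw [e, ← pow_add, two_mul]) (fun f => by rw [pow_zero]; exact one_dvd _)
  have e1 : 0 + 2 * k + 1 + k * (k - 1) = k ^ 2 + k + 1 := by
    rcases Nat.eq_zero_or_pos k with rfl | hk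
    · norm_num
    · obtain ⟨s, rfl⟩ : ∃ s, k = s + 1 := ⟨k - 1, by omega⟩
      simp only [Nat.add_sub_cancel]
      ring
  rw [e1] at h1
  have e2 : (BentSet (2 * k)).ncard = ∑ f : Fn (2 * k), (if DB f then 1 else 0) := by
    rw [ncard_eq (even_two_mul k), bn, Nat.card_eq_fintype_card, Fintype.card_subtype,
      Finset.card_filter]
  rw [e2]
  exact h1

/-- The Walsh-Hadamard coefficient, in the notation of the library. -/
lemma coeff_eq {N : ℕ} (f : (Fin N → ZMod 2) → ZMod 2) (y : Fin N → ZMod 2) :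
    ∑ x : Fin N → ZMod 2, (-1 : ℤ) ^ ((∑ i, x i * y i) + f x).val = W f y := by
  rw [W]
  apply Finset.sum_congr rfl
  intro x _
  have : (∑ i, x i * y i) + f x = f x + dot y x := by
    rw [add_comm, dot_comm]
    rfl
  rw [this]
  rfl

lemma general (N r : ℕ) : 2 ^ (N + 1 + r * (r - 1)) ∣
    {f : (Fin N → ZMod 2) → ZMod 2 | ∀ y : Fin N → ZMod 2,
      |∑ x : Fin N → ZMod 2, (-1 : ℤ) ^ ((∑ i, x i * y i) + f x).val| * 2 ^ r ≤ 2 ^ N}.ncard := by
  classical
  have hsq : ∀ z : ℤ, |z| * 2 ^ r ≤ 2 ^ N ↔ z ^ 2 * 4 ^ r ≤ 4 ^ N := by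
    intro z
    have e1 : z ^ 2 * 4 ^ r = (|z| * 2 ^ r) ^ 2 := by
      rw [mul_pow, sq_abs, ← pow_mul, mul_comm r 2, pow_mul]
      norm_num
    have e2 : (4 : ℤ) ^ N = (2 ^ N) ^ 2 := by
      rw [← pow_mul, mul_comm N 2, pow_mul]
      norm_num
    rw [e1, e2]
    have h1 : (0 : ℤ) ≤ |z| * 2 ^ r := by positivity
    have h2 : (0 : ℤ) ≤ 2 ^ N := by positivity
    exact (pow_le_pow_iff_left₀ h1 h2 (by norm_num)).symm
  have hset : {f : (Fin N → ZMod 2) → ZMod 2 | ∀ y : Fin N → ZMod 2,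
      |∑ x : Fin N → ZMod 2, (-1 : ℤ) ^ ((∑ i, x i * y i) + f x).val| * 2 ^ r ≤ 2 ^ N} =
      {f : Fn N | ∀ y, W f y ^ 2 * 4 ^ r ≤ 4 ^ N} := by
    ext f
    simp only [Set.mem_ofPred_eq, coeff_eq, hsq]
  rw [hset]
  have h1 := pow_dvd N r 0 (fun f => if (∀ y, W f y ^ 2 * 4 ^ r ≤ 4 ^ N) then 1 else 0) (by
    intro T hT f
    have key : ∀ g : Fn N, (∀ y, W g y ^ 2 * 4 ^ r ≤ 4 ^ N) →
        ∀ y, W (T g) y ^ 2 * 4 ^ r ≤ 4 ^ N := by
      intro g hg y
      obtain ⟨y', s, hy⟩ := hT.walsh y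
      rw [hy, mul_pow, sq (sg s), sg_mul_self, one_mul]
      exact hg y'
    have h : (∀ y, W (T f) y ^ 2 * 4 ^ r ≤ 4 ^ N) ↔ ∀ y, W f y ^ 2 * 4 ^ r ≤ 4 ^ N :=
      ⟨fun h => by
        have := key _ h
        rwa [hT.invol] at this, key f⟩
    simp only [h]) (by
    intro f hf
    by_contra h
    exact hf (if_neg h)) (fun f => by rw [pow_zero]; exact one_dvd _)
  rw [zero_add] at h1
  have e2 : {f : Fn N | ∀ y, W f y ^ 2 * 4 ^ r ≤ 4 ^ N}.ncard =
      ∑ f : Fn N, (if (∀ y, W f y ^ 2 * 4 ^ r ≤ 4 ^ N) then 1 else 0) := by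
    rw [← Finset.card_filter, ← Set.ncard_coe_finset]
    congr 1
    ext f
    simp
  rw [e2]
  exact h1

/-- The number of bent functions in `2 * k` variables is divisible by `2 ^ (k ^ 2 + k + 1)`. More
generally, for all `N` and `r`, the number of Boolean functions in `N` variables all of whose
Walsh-Hadamard coefficients are at most `2 ^ (N - r)` in absolute value is divisible by
`2 ^ (N + 1 + r * (r - 1))`. -/
theorem result :
    (∀ k : ℕ, 2 ^ (k ^ 2 + k + 1) ∣ (BentSet (2 * k)).ncard) ∧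
    (∀ N r : ℕ, 2 ^ (N + 1 + r * (r - 1)) ∣
      {f : (Fin N → ZMod 2) → ZMod 2 | ∀ y : Fin N → ZMod 2,
        |∑ x : Fin N → ZMod 2, (-1 : ℤ) ^ ((∑ i, x i * y i) + f x).val| * 2 ^ r
          ≤ 2 ^ N}.ncard) :=
  ⟨two, general⟩

end Pool.Agent.Results.MP_09a217_co.PowerOfTwo
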