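import Pool.Agent.Lib.MP_09a217_co.Cor

set_option autoImplicit false

/-! An upper bound for the number of bent functions. -/

namespace Pool.Agent.Results.MP_09a217_co.SubExponential

open Pool.Agent.Lib.MP09a217

/-- The set of bent functions in `n` variables (`n` even): all Walsh-Hadamard coefficients are
`2 ^ (n / 2)` or `- 2 ^ (n / 2)`. -/
def BentSet (n : ℕ) : Set ((Fin n → ZMod 2) → ZMod 2) :=
  {f | ∀ y : Fin n → ZMod 2,
    |∑ x : Fin n → ZMod 2, (-1 : ℤ) ^ ((∑ i, x i * y i) + f x).val| = 2 ^ (n / 2)}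

lemma ncard_eq (k : ℕ) : (BentSet (2 * k)).ncard = (BF k).card := by
  rw [← ncard_bent]
  congr 1
  ext f
  simp only [BentSet, Set.mem_ofPred_eq]
  have hk : 2 * k / 2 = k := by omega
  have h1 : ∀ y : Fin (2 * k) → ZMod 2,
      ∑ x : Fin (2 * k) → ZMod 2, (-1 : ℤ) ^ ((∑ i, x i * y i) + f x).val =
      ∑ x : Fin (2 * k) → ZMod 2, (-1 : ℤ) ^ ((f x + ∑ i, y i * x i).val) := by
    intro y
    apply Finset.sum_congr rfl
    intro x _
    have : (∑ i, x i * y i) + f x = f x + ∑ i, y i * x i := by
      rw [add_comm]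
      congr 1
      apply Finset.sum_congr rfl
      intro i _
      ring
    rw [this]
  have h2 : ∀ z : ℤ, |z| = 2 ^ k ↔ z ^ 2 = 2 ^ (2 * k) := by
    intro z
    have hp : (0 : ℤ) < 2 ^ k := by positivity
    have e : (2 : ℤ) ^ (2 * k) = (2 ^ k) ^ 2 := by ring
    rw [e, ← sq_abs z]
    constructor
    · intro h; rw [h]
    · intro h
      exact (pow_left_inj₀ (abs_nonneg z) hp.le (by norm_num)).mp h
  constructor
  · intro h a
    rw [← h1 a, ← h2]
    have := h a
    rw [hk] at this
    exact this
  · intro h y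
    rw [hk, h1 y, h2]
    exact h y

/-- For every even `n ≥ 4`, with `k = n / 2`, the number of bent functions in `n` variables is at
most `2 ^ (5 * sqrt (log k / k) * 2 ^ n)` (natural logarithm inside the square root); and for
every even `n ≥ 6600` it is less than `2 ^ (2 ^ (n - 2))`. -/
theorem result :
    (∀ n : ℕ, Even n → 4 ≤ n →
      ((BentSet n).ncard : ℝ) ≤
        (2 : ℝ) ^ (5 * Real.sqrt (Real.log ((n : ℝ) / 2) / ((n : ℝ) / 2)) * 2 ^ n)) ∧
    (∀ n : ℕ, Even n → 6600 ≤ n → (BentSet n).ncard < 2 ^ 2 ^ (n - 2)) := by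
  have key : ∀ k : ℕ, 2 ≤ k → ((BF k).card : ℝ) ≤
      (2 : ℝ) ^ (5 * Real.sqrt (Real.log k / k) * 2 ^ (2 * k)) := by
    intro k hk
    rcases (BF k).eq_empty_or_nonempty with hB | hB
    · rw [hB]
      simp only [Finset.card_empty, Nat.cast_zero]
      positivity
    have h := main_bound k hk
    have hpos : (0 : ℝ) < (BF k).card := by exact_mod_cast hB.card_pos
    rw [← Real.log_le_log_iff hpos (Real.rpow_pos_of_pos (by norm_num) _),
      Real.log_rpow (by norm_num)]
    linarith
  constructor
  · intro n hn h4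
    obtain ⟨k, hk⟩ := hn
    have hk' : n = 2 * k := by omega
    subst hk'
    rw [ncard_eq]
    have := key k (by omega)
    have e : (((2 * k : ℕ) : ℝ) / 2) = k := by push_cast; ring
    rw [e]
    exact this
  · intro n hn h4
    obtain ⟨k, hk⟩ := hn
    have hk' : n = 2 * k := by omega
    subst hk'
    rw [ncard_eq]
    have hk3 : 3300 ≤ k := by omega
    have h1 := key k (by omega)
    have hkR : (3300 : ℝ) ≤ k := by exact_mod_cast hk3
    have hk0 : (0 : ℝ) < k := by linarith
    -- log k / k ≤ log 3300 / 3300 < 1 / 400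
    have h2 : Real.log k / k ≤ Real.log 3300 / 3300 := by
      apply Real.log_div_self_antitoneOn
      · rw [Set.mem_Ici]
        have := Real.exp_one_lt_d9
        linarith
      · rw [Set.mem_Ici]
        have := Real.exp_one_lt_d9
        linarith
      · exact hkR
    have h3 : Real.log 3300 < 8.24 := by
      have e1 : Real.log 3300 = Real.log (3300 / 4096) + Real.log 4096 := by
        rw [← Real.log_mul (by norm_num) (by norm_num)]
        norm_num
      have e2 : Real.log 4096 = 12 * Real.log 2 := by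
        have : (4096 : ℝ) = 2 ^ 12 := by norm_num
        rw [this, Real.log_pow]
        norm_num
      have e3 := Real.log_two_lt_d9
      have e4 := Real.log_le_sub_one_of_pos (show (0 : ℝ) < 3300 / 4096 by norm_num)
      rw [e1, e2]
      linarith
    have h4 : 5 * Real.sqrt (Real.log k / k) < 1 / 4 := by
      have h5 : Real.sqrt (Real.log k / k) < 1 / 20 := by
        rw [Real.sqrt_lt' (by norm_num)]
        have : Real.log 3300 / 3300 < (1 / 20) ^ 2 := by
          rw [div_lt_iff₀ (by norm_num)]
          linarith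
        linarith
      linarith
    have h5 : (2 : ℝ) ^ (5 * Real.sqrt (Real.log k / k) * 2 ^ (2 * k)) <
        (2 : ℝ) ^ (((2 ^ (2 * k - 2) : ℕ) : ℝ)) := by
      apply Real.rpow_lt_rpow_of_exponent_lt (by norm_num)
      have e : ((2 ^ (2 * k - 2) : ℕ) : ℝ) = 1 / 4 * 2 ^ (2 * k) := by
        have e1 : 2 * k = (2 * k - 2) + 2 := by omega
        have e3 : (2 : ℝ) ^ (2 * k) = 2 ^ (2 * k - 2) * 2 ^ 2 := by
          rw [← pow_add, ← e1]
        rw [e3]
        push_cast
        ring
      rw [e]
      exact mul_lt_mul_of_pos_right h4 (by positivity)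
    rw [Real.rpow_natCast] at h5
    have h6 := lt_of_le_of_lt h1 h5
    exact_mod_cast h6

end Pool.Agent.Results.MP_09a217_co.SubExponential
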